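import Pool.Agent.Q42.CU.Loc

/-!
# The local topological monodromy conjecture: reduction to sums of cubes over triple systems

A *triple system* over a field `k ⊂ ℂ` consists of subsets `E_1, …, E_r` of `{1, …, m}` with three
elements or with one element and of constants `c_1, …, c_r` in `k`, where `c_j = 0` if `E_j` has three
elements. Its polynomial is

`Φ = (z_1 ^ 3 + ⋯ + z_m ^ 3) / 24 + ∑_j y_j (∑_{i ∈ E_j} z_i - c_j)`.

Every germ at the origin of a polynomial `f ∈ k[x_1, …, x_n]`, `f(0) = 0`, is stably equivalent to the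
germ of such a hypersurface `Φ = 0` at a point `p` with coordinates in `k`: for all large `κ` there is an
isomorphism of polynomial rings over `k` which fixes the origin and takes
`f + u_1 v_1 + ⋯ + u_κ v_κ` to `Φ(p + (z, y))`. If `k` is spanned by the set `S ∋ 1` as a vector space over
`ℚ`, the `c_j ≠ 0` can be taken to be different elements of `S`; so for `k = ℚ` there is one constant `1`
and all others are `0`, that is, `Φ` is given by a 3-uniform hypergraph with some marked vertices. We
deduce that Q1 for the germs of all polynomials over `k` is equivalent to its case of the germs of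
the hypersurfaces `Φ = 0` at their `k`-rational points, and that only the germs with minimal exponent
larger than any given `N` have to be considered. This is the analogue of Drużkowski's theorem on the
Jacobian conjecture.

Method. Horner's scheme of `f` along a forest (our hand-in TrilinearReductionLocal) makes `f` trilinear. The
products of three variables or constants are sums of cubes of linear forms `± a ± b ± c`; every linear
form which occurs is computed step by step, each step being an equation `z + z' + z'' = 0`, and the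
cubes of the auxiliary forms are cancelled by the cubes of their negatives. The equations have an
invertible (unitriangular) matrix, and so an automorphism takes `f + ∑ u_m v_m` to `Φ`; the variables
`y_j` are the Lagrange multipliers of the equations. Constants are moved by
`(u + 1) (v - a) = u v - a u + v - a`, and denominators are removed by `x_i ↦ D x_i`. The addition
of a plane `u v` shifts the roots of `b_f(s) / (s + 1)` and the poles of the topological zeta function by
`-1`, apart from integers (see TrilinearReductionLocal).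
-/

set_option autoImplicit false

namespace Pool.Agent.Results.MP_aa7fc1_ag.TripleSystems

open MvPolynomial Pool.Agent.Q223.MM Pool.Agent.Q223.TW Pool.Agent.TH192.MU Pool.Agent.Q42.CU
open Pool.Agent.W428.MOT (MK Lu)
open Pool.Agent.H628R4.TP (IsLocalBFunction)

/-- **Q1 for the germs of polynomials over `k` is equivalent to its case of the germs of the
polynomials of triple systems with minimal exponent larger than `N`.**

`Phi 24⁻¹ E c` is the polynomial `(∑ z_i ^ 3) / 24 + ∑_j y_j (∑_{i ∈ E j} z_i - c j)`, and
`tra p F = F(x + p)`. `IsTriple S E c`: every `E j` has three elements and `c j = 0`, or one element and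
`c j = 0` or `c j ∈ S`; and the `c j` which are not zero are different. `StEqO f κ F`: `F` has `n + 2 κ`
variables and an isomorphism of polynomial rings which fixes the origin takes `f + ∑_{m < κ} u_m v_m` to
`F`.

`WeakL E' ε f`: for every pole `s₀` of the local topological zeta function of `f` at the origin
(`IsTopZeta E' ε (zetaO f) Z`) and every `b` with `b(s) f ^ s = P(s) f ^ (s + 1)`
(`IsLocalBFunction f b`), `P(s)` a differential operator with formal power series coefficients,
polynomial in `s` (for instance `b = b_f`), there is `j ∈ ℤ` with `b(s₀ + j) = 0`. By the theorem of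
Malgrange and Kashiwara this is Q1 for the germ of `f`: the monodromy eigenvalues of `f` near the
origin are the numbers `exp(2 π i s)` with `b_f(s) = 0`.
`MinExpL N F`: there is `c ≠ 0` such that `(s + 1) c(s)` satisfies such a functional equation for `F`, and
the roots of `c` have real part `< -N`; so the minimal exponent of `F` at `0` is larger than `N`.

First part: the germ of `f` is stably equivalent to the germs of the polynomials of triple systems at
`k`-rational points of their zero sets, for all large numbers `κ` of planes; they have minimal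
exponent larger than `N` (as `f` has a local Bernstein-Sato polynomial), and for all realisations
`(E', ε)` the conjecture for one of them implies the conjecture for `f`.
Second part: the equivalence. For `k = ℂ`, `S = Set.univ` it is about the germs of all polynomials, for
`k = ℚ`, `S = {1}` about the germs at the origin of the polynomials with rational coefficients. -/
theorem result (k : Type) [Field k] [CharZero k] [Algebra k ℂ] (S : Set k) (hS : (1 : k) ∈ S)
    (hk : Submodule.span ℚ S = ⊤) (N : ℕ) :
    (∀ (n : ℕ) (f : MvPolynomial (Fin n) k), f ≠ 0 → coeff 0 f = 0 →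
      ∃ κ₁ : ℕ, ∀ κ, κ₁ ≤ κ → ∃ (m r : ℕ) (E : Fin r → Finset (Fin m)) (c : Fin r → k)
        (p : Fin (m + r) → k), 0 < m ∧ IsTriple S E c ∧ eval p (Phi 24⁻¹ E c) = 0 ∧
        StEqO f κ (tra p (Phi 24⁻¹ E c)) ∧
        ((∃ b : Polynomial ℂ, b ≠ 0 ∧ IsLocalBFunction (map (algebraMap k ℂ) f) b) →
          MinExpL N (map (algebraMap k ℂ) (tra p (Phi 24⁻¹ E c)))) ∧
        ∀ (R : Type) [CommRing R] [IsDomain R] (E' : MK ℂ →+* R) (ε : R →+* ℂ),
          ε (E' ((Lu ℂ : (MK ℂ)ˣ) : MK ℂ)) = 1 → E' ((Lu ℂ : (MK ℂ)ˣ) : MK ℂ) ≠ 1 →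
          WeakL E' ε (map (algebraMap k ℂ) (tra p (Phi 24⁻¹ E c))) →
            WeakL E' ε (map (algebraMap k ℂ) f)) ∧
    ∀ (R : Type) [CommRing R] [IsDomain R] (E' : MK ℂ →+* R) (ε : R →+* ℂ),
      ε (E' ((Lu ℂ : (MK ℂ)ˣ) : MK ℂ)) = 1 → E' ((Lu ℂ : (MK ℂ)ˣ) : MK ℂ) ≠ 1 →
      ((∀ (n : ℕ) (f : MvPolynomial (Fin n) k), f ≠ 0 → coeff 0 f = 0 →
          WeakL E' ε (map (algebraMap k ℂ) f)) ↔
        ∀ (m r : ℕ) (E : Fin r → Finset (Fin m)) (c : Fin r → k) (p : Fin (m + r) → k), 0 < m →
          IsTriple S E c → eval p (Phi 24⁻¹ E c) = 0 →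
          MinExpL N (map (algebraMap k ℂ) (tra p (Phi 24⁻¹ E c))) →
          WeakL E' ε (map (algebraMap k ℂ) (tra p (Phi 24⁻¹ E c)))) := by
  have key : ∀ (n : ℕ) (f : MvPolynomial (Fin n) k), f ≠ 0 → coeff 0 f = 0 →
      ∃ κ₁ : ℕ, ∀ κ, κ₁ ≤ κ → ∃ (m r : ℕ) (E : Fin r → Finset (Fin m)) (c : Fin r → k)
        (p : Fin (m + r) → k), 0 < m ∧ IsTriple S E c ∧ eval p (Phi 24⁻¹ E c) = 0 ∧
        StEqO f κ (tra p (Phi 24⁻¹ E c)) ∧
        ((∃ b : Polynomial ℂ, b ≠ 0 ∧ IsLocalBFunction (map (algebraMap k ℂ) f) b) →
          MinExpL N (map (algebraMap k ℂ) (tra p (Phi 24⁻¹ E c)))) ∧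
        ∀ (R : Type) [CommRing R] [IsDomain R] (E' : MK ℂ →+* R) (ε : R →+* ℂ),
          ε (E' ((Lu ℂ : (MK ℂ)ˣ) : MK ℂ)) = 1 → E' ((Lu ℂ : (MK ℂ)ˣ) : MK ℂ) ≠ 1 →
          WeakL E' ε (map (algebraMap k ℂ) (tra p (Phi 24⁻¹ E c))) →
            WeakL E' ε (map (algebraMap k ℂ) f) := by
    intro n f hf h0
    obtain ⟨κ₁, h⟩ := exists_phisL S hS N n f hf h0 fun d => by
      rw [hk]
      exact Submodule.mem_top
    refine ⟨κ₁, fun κ hκ => ?_⟩
    obtain ⟨m, r, E, c, p, hm, hc, hp, he, hme⟩ := h κ hκ
    refine ⟨m, r, E, c, p, hm, hc, hp, he, hme, fun R _ _ E' ε h1 h2 => ?_⟩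
    exact (he.map.locT (fun h => hf (map_injective _ (algebraMap k ℂ).injective
      (h.trans (map_zero _).symm))) (by rw [coeff_map, h0, map_zero]) R E' ε h1 h2).1
  refine ⟨key, ?_⟩
  intro R _ _ E' ε h1 h2
  constructor
  · intro h m r E c p hm hc hp _
    exact h _ _ (tra_ne hm E c p) (tra_cc hp)
  · intro h n f hf h0
    by_cases hb : ∃ b : Polynomial ℂ, b ≠ 0 ∧ IsLocalBFunction (map (algebraMap k ℂ) f) b
    · obtain ⟨κ₁, h3⟩ := key n f hf h0
      obtain ⟨m, r, E, c, p, hm, hc, hp, -, hme, h4⟩ := h3 κ₁ le_rfl
      exact h4 R E' ε h1 h2 (h m r E c p hm hc hp (hme hb))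
    · intro Z _ s₀ _ b hb'
      by_contra hne
      exact hb ⟨b, fun h0 => hne ⟨0, by rw [h0, Polynomial.eval_zero]⟩, hb'⟩

end Pool.Agent.Results.MP_aa7fc1_ag.TripleSystems
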